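import Pool.Agent.T9h16.QL.Spec
import Pool.Agent.T9h34.Q.Final

set_option autoImplicit false

/-!
# Planted cliques in G(n, p): the final theorem
-/

namespace Pool.Agent.T9h16.QL

open Finset
open Pool.Agent.PC34 (prob withClique labelGraph)
open Pool.Agent.T9h34 (graphInput)
open Pool.Agent.T9h34.P (gr)
open Pool.Agent.HC34 (srcs IsLevel DepthLE)
open Pool.Agent.T9h34.Q

theorem labelGraph_eq {n L : ℕ} (lab : Sym2 (Fin n) → Fin L) (a : ℕ) :
    labelGraph lab a = gr (low lab a) := by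
  ext u v
  simp only [labelGraph, gr, low, mem_filter, mem_univ, true_and]

/-- The parameters of the theorem are those of the experiment. -/
theorem stFinalL (hAll : StAllL) (hPar : StParamsL) : StFinalL := by
  intro δ h0 h1
  obtain ⟨n₀, hn₀⟩ := hPar δ h0 h1
  refine ⟨max n₀ 1, ?_⟩
  intro n k f s D a L hn hk hD hns hf ha haL hlog d' C hC hCs hdep
  have hnpos : 0 < n := lt_of_lt_of_le Nat.one_pos (le_trans (le_max_right _ _) hn)
  have hn' : n₀ ≤ n := le_trans (le_max_left _ _) hn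
  have hn1 : (1 : ℝ) ≤ n := by exact_mod_cast hnpos
  have hn0 : (0 : ℝ) < n := by linarith
  have ha0 : (0 : ℝ) < a := by exact_mod_cast ha
  have hμ : (1 : ℝ) ≤ (L : ℝ) / a := by
    rw [le_div_iff₀ ha0, one_mul]
    exact_mod_cast haL
  have hkD : (1 : ℝ) ≤ ((k : ℝ) * D) ^ 2 := by
    have h2 : (1 : ℝ) ≤ (k : ℝ) * D := by
      have : 1 ≤ k * D := Nat.one_le_iff_ne_zero.2 (by positivity)
      exact_mod_cast this
    nlinarith
  have htriv : (1 : ℝ) ≤ 2 ^ C.numTests * (((k : ℝ) * D) ^ 2 * (n : ℝ) ^ (δ - 1)) →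
      prob (fun x : (Sym2 (Fin n) → Fin L) × {S : Finset (Fin n) // S.card = k} =>
        C.eval (graphInput (withClique (labelGraph x.1 a) x.2.1)) = true) ≤
      prob (fun lab : Sym2 (Fin n) → Fin L => C.eval (graphInput (labelGraph lab a)) = true) +
        2 ^ C.numTests * (((k : ℝ) * D) ^ 2 * (n : ℝ) ^ (δ - 1)) := by
    intro h
    have h6 := prob_le_one (fun x : (Sym2 (Fin n) → Fin L) × {S : Finset (Fin n) // S.card = k} =>
      C.eval (graphInput (withClique (labelGraph x.1 a) x.2.1)) = true)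
    have h7 := prob_nonneg (fun lab : Sym2 (Fin n) → Fin L =>
      C.eval (graphInput (labelGraph lab a)) = true)
    linarith
  by_cases hT : C.numTests ≤ Nat.log 2 n
  · by_cases hkn : ((k : ℝ) * D) ^ 2 < (n : ℝ) ^ (1 - δ)
    · have hlog' : f * Real.log s * Real.log (2 * ((L : ℝ) / a)) ≤
          δ ^ 2 / 4000 * Real.log n ^ 2 := by
        rw [← mul_div_assoc]
        exact hlog
      obtain ⟨_, hkn', c, m, q, B, d, hc, hd, hm, hq, hB, hR, herr⟩ :=
        hn₀ n k f s D ((L : ℝ) / a) hn' hk hD hns hf hμ hlog' hkn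
      have hR' : (Fintype.card (Rt B d m)) ^ 2 * L ≤ a * n := by
        rw [← mul_div_assoc, div_le_iff₀ ha0] at hR
        have h3 : ((Fintype.card (Rt B d m) : ℝ)) ^ 2 * L ≤ a * n := by linarith
        exact_mod_cast h3
      have h2 := hAll n L a B d m k f c q D s d' C ha haL hnpos hkn' hC hCs hdep hf hc hd hm hq
        (le_trans (Nat.mul_le_mul_left q (by omega)) hB) hR'
      simp only [labelGraph_eq, withClique_gr]
      refine h2.trans ?_
      have h7 := mul_le_mul_of_nonneg_left herr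
        (by positivity : (0 : ℝ) ≤ 2 ^ C.numTests)
      linarith
    · push Not at hkn
      apply htriv
      have h8 : (1 : ℝ) ≤ ((k : ℝ) * D) ^ 2 * (n : ℝ) ^ (δ - 1) := by
        calc (1 : ℝ) = (n : ℝ) ^ (1 - δ) * (n : ℝ) ^ (δ - 1) := by
              rw [← Real.rpow_add hn0]
              simp
          _ ≤ _ := mul_le_mul_of_nonneg_right hkn (by positivity)
      have h9 : (1 : ℝ) ≤ 2 ^ C.numTests := one_le_pow₀ (by norm_num)
      nlinarith
  · push Not at hT
    have h2 : n < 2 ^ C.numTests := by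
      have := Nat.lt_pow_succ_log_self (b := 2) (by norm_num) n
      exact lt_of_lt_of_le this (Nat.pow_le_pow_right (by norm_num) hT)
    have h3 : (n : ℝ) ≤ 2 ^ C.numTests := by exact_mod_cast h2.le
    apply htriv
    have h4 : (n : ℝ) ^ (-(1 : ℝ)) ≤ (n : ℝ) ^ (δ - 1) :=
      Real.rpow_le_rpow_of_exponent_le hn1 (by linarith)
    have h5 : (0 : ℝ) < (n : ℝ) ^ (-(1 : ℝ)) := by positivity
    calc (1 : ℝ) = n * (n : ℝ) ^ (-(1 : ℝ)) := by
          rw [Real.rpow_neg_one]
          field_simp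
      _ ≤ 2 ^ C.numTests * (((k : ℝ) * D) ^ 2 * (n : ℝ) ^ (δ - 1)) := by
          refine mul_le_mul h3 ?_ h5.le (by positivity)
          nlinarith

end Pool.Agent.T9h16.QL
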