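import Pool.Agent.T9h34.Q.Spec3

set_option autoImplicit false

/-!
# Planted cliques in G(n, p) for every density p = a / L: the statements of the pieces

The graph `G_0` is given by independent uniform labels in `Fin L`: its edges are the pairs with a
label `< a`.  Everything else is as in `Pool.Agent.T9h34.Q`; all deterministic pieces are used there
for the environment `toEnv a ω`.  Notation: `μ = L / a` is `1 / p`.  New: absorbing an edge costs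
`μ` instead of `2`, and a star costs `2 * μ * R / n`.
-/

namespace Pool.Agent.T9h16.QL

open Finset
open Pool.Agent.PC34 (prob withClique labelGraph)
open Pool.Agent.T9h34 (graphInput)
open Pool.Agent.T9h34.P (gr)
open Pool.Agent.HC34 (srcs IsLevel DepthLE)
open Pool.Agent.T9h34.Q

section defs

variable {E V : Type} [Fintype E] [DecidableEq E] [Fintype V] [DecidableEq V] {L B d m j : ℕ}

/-- The elements with a label smaller than `a`. -/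
def low (lab : E → Fin L) (a : ℕ) : Finset E := univ.filter (fun e => (lab e : ℕ) < a)

/-- The environment with labels. -/
abbrev EnvL (V : Type) (L B d m : ℕ) : Type :=
  (Sym2 V → Fin L) × (Ix B d m → Option (Rt B d m) → V) × (V → Ix B d m → V)

instance finEnvL : Fintype (EnvL V L B d m) := instFintypeProd _ _

/-- The environment, with the graph of the labels smaller than `a`. -/
def toEnv (a : ℕ) (ω : EnvL V L B d m) : Env V B d m := (low ω.1 a, ω.2)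

/-- The weight of the critical patterns with `j` vertices, `x = k / (m + 1)`; for `μ = 2` this is
`wgt x j`. -/
noncomputable def wgtL (μ x : ℝ) (j : ℕ) : ℝ :=
  (2 : ℝ) ^ (j * (j + 1) / 2 + j) * μ ^ (j * (j + 1) / 2) * x ^ j

/-- The probability of an error, for circuits without gates of the second kind; `δ` is the distance
made by one star. -/
noncomputable def errL (s q c w M : ℕ) (μ x δ : ℝ) : ℝ :=
  s * (q * ∑ j ∈ Icc (c + 1) w, wgtL μ x j) + M * δ * (q * ∑ j ∈ Icc 1 c, wgtL μ x j)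

end defs

/-! ## The pieces.  The base file of each is named; most are copies with `Finset (Sym2 V)` replaced
by `Sym2 V → Fin L`. -/

/-- (E) as `StChange`.  For fixed labels outside `K`: if `Θ (low lab a ∪ K)` holds for one choice of
the labels on `K`, then for all `L ^ K.card`, and `Θ (low lab a)` holds for the `a ^ K.card` choices
with all labels on `K` smaller than `a`. -/
def StChangeL : Prop := ∀ (E : Type) [Fintype E] [DecidableEq E] (L a : ℕ) (K : Finset E)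
  (Θ : Finset E → Prop), a ≤ L →
  a ^ K.card * Nat.card {lab : E → Fin L // Θ (low lab a ∪ K)} ≤
  L ^ K.card * Nat.card {lab : E → Fin L // Θ (low lab a)}

/-- (E2) as `StExtra` (T9h12/QC/Extra), from (E); `a₀` is the bound for the labels. -/
def StExtraL : Prop := ∀ (V : Type) [Fintype V] [DecidableEq V] (L a₀ B d m j a : ℕ), a₀ ≤ L →
  ∀ (h : Finset (Sym2 V) → ℝ), Monotone h → ∀ (φ : Fin j → V), Function.Injective φ →
  ∀ (F : Finset (Sym2 (Fin j))) (C A : Finset (Fin j)) (par : Fin j → Fin j), A ⊆ C →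
  (∀ w ∉ C, par w ∈ C ∧ s(par w, w) ∈ F) →
  ∀ (pk : Ix B d m → Packet V B d m) (ν : V → Ix B d m → V),
  a₀ ^ F.card * Nat.card {lab : Sym2 V → Fin L // Crit h (low lab a₀, pk, ν) a
    (F.image (Sym2.map φ)) (A.image φ) (univ.image φ)} ≤
  L ^ F.card * Nat.card {lab : Sym2 V → Fin L // CritS h (low lab a₀, pk, ν) a φ C A par}

/-- (D) the exchange, from `exch_count` of T9h71/QC/ExchB (copy of `exch_prob`: sum over the labels
instead of the graphs).  Prove it from `StDet`, `StRotB`, `StFibre`. -/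
def StExchL : Prop := ∀ (V : Type) [Fintype V] [DecidableEq V] [Nonempty V] (L a₀ B d m j a : ℕ)
  (ha : a < B), 0 < L → j ≤ d → 1 ≤ j → 1 ≤ m →
  ∀ (h : Finset (Sym2 V) → ℝ), Monotone h →
  ∀ (C A : Finset (Fin j)) (par : Fin j → Fin j), A ⊆ C → (∀ w ∉ C, par w ∈ C) →
  (∀ x ∈ C, x ∉ A → ∃ w ∉ C, par w = x) →
  ((m : ℝ) + 1) ^ j * prob (fun x : (Fin j → V) × EnvL V L B d m =>
    Function.Injective x.1 ∧ CritS h (toEnv a₀ x.2) a x.1 C A par) ≤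
  prob (fun x : (Sym2 V → Fin L) × (Fin j → V) × (Fin j → Ix B d m → V) ×
      (Ix B d m → Option (Rt B d m) → V) =>
    h (baseG (low x.1 a₀) x.2.2.2 a) < h (baseG (low x.1 a₀) x.2.2.2 a ∪
      allG x.2.1 x.2.2.1 x.2.2.2 ⟨a, ha⟩ C par))

/-- (F1) as `shape_of` of T9h71/QC/ExchB, from `StCover` and (E2). -/
def StShapeL : Prop := ∀ (V : Type) [Fintype V] [DecidableEq V] [Nonempty V]
  (L a₀ B d m j a : ℕ), 1 ≤ a₀ → a₀ ≤ L →
  ∀ (h : Finset (Sym2 V) → ℝ), Monotone h → ∀ (δ : ℝ) (F : Finset (Sym2 (Fin j)))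
  (A : Finset (Fin j)), (∀ e ∈ F, ¬ e.IsDiag) → (∀ v, v ∈ A ∨ ∃ e ∈ F, v ∈ e) →
  (∀ (C : Finset (Fin j)) (par : Fin j → Fin j), A ⊆ C → (∀ w ∉ C, par w ∈ C) →
    (∀ x ∈ C, x ∉ A → ∃ w ∉ C, par w = x) →
    ((m : ℝ) + 1) ^ j * prob (fun x : (Fin j → V) × EnvL V L B d m =>
      Function.Injective x.1 ∧ CritS h (toEnv a₀ x.2) a x.1 C A par) ≤ δ) →
  ((m : ℝ) + 1) ^ j * prob (fun x : (Fin j → V) × EnvL V L B d m =>
    Function.Injective x.1 ∧ Crit h (toEnv a₀ x.2) a (F.image (Sym2.map x.1)) (A.image x.1)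
      (univ.image x.1)) ≤ ((L : ℝ) / a₀) ^ F.card * δ

/-- (F2) as `bad_of_shape` of T9h41/QC/BadB. -/
def StBadL : Prop := ∀ (V : Type) [Fintype V] [DecidableEq V] [Nonempty V] (L a₀ B d m k : ℕ),
  1 ≤ a₀ → a₀ ≤ L → k ≤ Fintype.card V → ∀ (t q lo hi : ℕ) (h : Finset (Sym2 V) → ℝ) (δ : ℝ),
  0 ≤ δ →
  (∀ a j, a < t + q → lo ≤ j → j ≤ hi → ∀ (F : Finset (Sym2 (Fin j)))
    (A : Finset (Fin j)), (∀ e ∈ F, ¬ e.IsDiag) → (∀ v, v ∈ A ∨ ∃ e ∈ F, v ∈ e) →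
    ((m : ℝ) + 1) ^ j * prob (fun x : (Fin j → V) × EnvL V L B d m =>
      Function.Injective x.1 ∧ Crit h (toEnv a₀ x.2) a (F.image (Sym2.map x.1)) (A.image x.1)
        (univ.image x.1)) ≤ ((L : ℝ) / a₀) ^ F.card * δ) →
  prob (fun x : {S : Finset V // S.card = k} × EnvL V L B d m =>
    Bad h t q lo hi x.1.1 (toEnv a₀ x.2)) ≤
  δ * ((q : ℝ) * ∑ j ∈ Icc lo hi, wgtL ((L : ℝ) / a₀) ((k : ℝ) / (m + 1)) j)

/-- (F3) From (D), (F1), (F2) and the fact that probabilities are at most `1`: for inner gates. -/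
def StBadIn : Prop := ∀ (V : Type) [Fintype V] [DecidableEq V] [Nonempty V] (L a₀ B d m k : ℕ),
  1 ≤ a₀ → a₀ ≤ L → k ≤ Fintype.card V → ∀ (t q lo hi : ℕ), t + q ≤ B → 1 ≤ lo → hi ≤ d →
  1 ≤ m → ∀ (h : Finset (Sym2 V) → ℝ), Monotone h →
  prob (fun x : {S : Finset V // S.card = k} × EnvL V L B d m =>
    Bad h t q lo hi x.1.1 (toEnv a₀ x.2)) ≤
  (q : ℝ) * ∑ j ∈ Icc lo hi, wgtL ((L : ℝ) / a₀) ((k : ℝ) / (m + 1)) j

/-- (H1) One star, as `StStar` (T9h68/QC/Star): with `μ = L / a`, `E_H f ^ 2 =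
E_{p, p'} μ ^ |star p ∩ star p'|` is at most
`1 + (1 / n) * ((1 + R * μ / n) ^ R - 1) + (μ - 1) * (R / n) ^ 2 ≤ 1 + 3 * μ ^ 2 * R ^ 2 / n ^ 2`
if `R ^ 2 * μ ≤ n`; then Cauchy-Schwarz. -/
def StStarL : Prop := ∀ (V ρ : Type) [Fintype V] [DecidableEq V] [Nonempty V] [Fintype ρ]
  [DecidableEq ρ] (L a : ℕ), 1 ≤ a → a ≤ L →
  (Fintype.card ρ) ^ 2 * L ≤ a * Fintype.card V → ∀ Θ : Finset (Sym2 V) → Prop,
  prob (fun x : (Sym2 V → Fin L) × (Option ρ → V) => Θ (low x.1 a ∪ star x.2)) ≤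
  prob (fun lab : Sym2 V → Fin L => Θ (low lab a)) +
    2 * ((L : ℝ) / a) * (Fintype.card ρ : ℝ) / Fintype.card V

/-- (H2) All stars, from (H1), as `StTV`. -/
def StTVL : Prop := ∀ (V : Type) [Fintype V] [DecidableEq V] [Nonempty V] (L a B d m : ℕ),
  1 ≤ a → a ≤ L → (Fintype.card (Rt B d m)) ^ 2 * L ≤ a * Fintype.card V →
  ∀ Θ : Finset (Sym2 V) → Prop,
  prob (fun ω : EnvL V L B d m => Θ (stage (toEnv a ω) B)) ≤
  prob (fun lab : Sym2 V → Fin L => Θ (low lab a)) +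
    Fintype.card (Ix B d m) * (2 * ((L : ℝ) / a) * (Fintype.card (Rt B d m) : ℝ) /
      Fintype.card V)

/-- (H3) as `StAllTV` (T9h12/QC/AllTV), from (H1). -/
def StAllTVL : Prop := ∀ (V : Type) [Fintype V] [DecidableEq V] [Nonempty V]
  (L a₀ B d m j : ℕ) (a : Fin B), 1 ≤ a₀ → a₀ ≤ L → j ≤ d →
  (Fintype.card (Rt B d m)) ^ 2 * L ≤ a₀ * Fintype.card V →
  ∀ (h : Finset (Sym2 V) → ℝ), Monotone h → IsBool h →
  ∀ (C : Finset (Fin j)) (par : Fin j → Fin j), (∀ w ∉ C, par w ∈ C) →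
  prob (fun x : (Sym2 V → Fin L) × (Fin j → V) × (Fin j → Ix B d m → V) ×
      (Ix B d m → Option (Rt B d m) → V) =>
    h (baseG (low x.1 a₀) x.2.2.2 a) < h (baseG (low x.1 a₀) x.2.2.2 a ∪
      allG x.2.1 x.2.2.1 x.2.2.2 a C par)) ≤
  ((d * m + j : ℕ) : ℝ) * (2 * ((L : ℝ) / a₀) * (Fintype.card (Rt B d m) : ℝ) /
    Fintype.card V)

/-- (F4) From (D), (F1), (F2), (H3): for the output. -/
def StBadOut : Prop := ∀ (V : Type) [Fintype V] [DecidableEq V] [Nonempty V] (L a₀ B d m k : ℕ),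
  1 ≤ a₀ → a₀ ≤ L → k ≤ Fintype.card V → ∀ (t q lo hi : ℕ), t + q ≤ B → 1 ≤ lo → hi ≤ d →
  1 ≤ m → (Fintype.card (Rt B d m)) ^ 2 * L ≤ a₀ * Fintype.card V →
  ∀ (h : Finset (Sym2 V) → ℝ), Monotone h → IsBool h →
  prob (fun x : {S : Finset V // S.card = k} × EnvL V L B d m =>
    Bad h t q lo hi x.1.1 (toEnv a₀ x.2)) ≤
  ((d * m + hi : ℕ) : ℝ) * (2 * ((L : ℝ) / a₀) * (Fintype.card (Rt B d m) : ℝ) /
    Fintype.card V) *
    ((q : ℝ) * ∑ j ∈ Icc lo hi, wgtL ((L : ℝ) / a₀) ((k : ℝ) / (m + 1)) j)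

/-- (G3) as `StMonoB` (T9h68/QC/MonoB), from (F3), (F4) and `StCircB` (for `toEnv a₀ ω`). -/
def StMonoL : Prop := ∀ (n L a₀ B d m k f c q D s : ℕ) (C : T9h35.RW.Circuit (Fin n × Fin n)),
  1 ≤ a₀ → a₀ ≤ L → 0 < n → k ≤ n → (∀ g ∈ C.gates, g.IsMono f) → C.size ≤ s → DepthLE C D →
  1 ≤ f → 2 ≤ c → d = f * c → 1 ≤ m → (d ^ 2 + 1) * (d + 1) ≤ q → q * (D + 1) ≤ B →
  (Fintype.card (Rt B d m)) ^ 2 * L ≤ a₀ * n →
  prob (fun x : {S : Finset (Fin n) // S.card = k} × EnvL (Fin n) L B d m =>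
    C.eval (graphInput (gr (low x.2.1 a₀ ∪ KT x.1.1))) = true ∧
      C.eval (graphInput (gr (stage (toEnv a₀ x.2) B))) = false) ≤
  errL s q c d (d * m + c) ((L : ℝ) / a₀) ((k : ℝ) / (m + 1))
    (2 * ((L : ℝ) / a₀) * (Fintype.card (Rt B d m) : ℝ) / n)

/-- (K) as `StAllB` (T9h75/QC/AllB), from (G3), `StDetector`, `StReads`, (H2). -/
def StAllL : Prop := ∀ (n L a₀ B d m k f c q D s d' : ℕ)
  (C : T9h35.RW.Circuit (Fin n × Fin n)),
  1 ≤ a₀ → a₀ ≤ L → 0 < n → k ≤ n → C.FanIn f d' → C.size + C.numTests ≤ s → DepthLE C D →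
  2 ≤ f → 2 ≤ c → d = f * c → 1 ≤ m → (d ^ 2 + 1) * (d + 1) ≤ q →
  q * (D + C.numTests + 2) ≤ B → (Fintype.card (Rt B d m)) ^ 2 * L ≤ a₀ * n →
  prob (fun x : (Sym2 (Fin n) → Fin L) × {S : Finset (Fin n) // S.card = k} =>
    C.eval (graphInput (gr (low x.1 a₀ ∪ KT x.2.1))) = true) ≤
  prob (fun lab : Sym2 (Fin n) → Fin L => C.eval (graphInput (gr (low lab a₀))) = true) +
  2 ^ C.numTests * (errL (s + 1) q c d (d * m + c) ((L : ℝ) / a₀) ((k : ℝ) / (m + 1))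
      (2 * ((L : ℝ) / a₀) * (Fintype.card (Rt B d m) : ℝ) / n) +
    Fintype.card (Ix B d m) * (2 * ((L : ℝ) / a₀) * (Fintype.card (Rt B d m) : ℝ) / n))

/-- (P) Parameters, as `StParamsB` (T9h46/QC/ParamsB); `μ ≥ 1` is any real number (`1 / p`).
Suppose `(k * D) ^ 2 < n ^ (1 - δ)`.  Let `γ = δ / 5`, `m = ⌊k * n ^ γ⌋₊ + 1`,
`c = ⌈2 * (log s + 2 * log n) / (γ * log n)⌉₊ + 2`, `d = f * c`, `q = (d ^ 2 + 1) * (d + 1)`,
`B = q * (D + Nat.log 2 n + 2)`.  Then `c ≤ 9 * log s / (γ * log n)`, so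
`(d + 3) * log (2 * μ) ≤ 2 * d * log (2 * μ) ≤ 90 * f * log s * log (2 * μ) / (δ * log n)
≤ γ / 8 * log n` if the constant `4000` below is used (`90 / 4000 ≤ 1 / 40`), hence
`wgtL μ x j ≤ (n ^ (γ / 8) * x) ^ j ≤ (n ^ (-7 * γ / 8)) ^ j` for `1 ≤ j ≤ d`.  Moreover
`2 * log n * log (2 * μ) ≤ δ ^ 2 / 4000 * log n ^ 2`, so `μ ≤ n ^ (δ / 8000)`.  The rest as in
`StParamsB`: the first part of `errL` is at most `n ^ (-2)`, the rest at most a power of `log n`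
times `μ * (D * m) ^ 2 / n ≤ 4 * μ * (k * D) ^ 2 * n ^ (2 * γ - 1)`; and `R ^ 2 * μ ≤ n`. -/
def StParamsL : Prop := ∀ δ : ℝ, 0 < δ → δ ≤ 1 → ∃ n₀ : ℕ, ∀ (n k f s D : ℕ) (μ : ℝ), n₀ ≤ n →
  1 ≤ k → 1 ≤ D → n ≤ s → 2 ≤ f → 1 ≤ μ →
  f * Real.log s * Real.log (2 * μ) ≤ δ ^ 2 / 4000 * Real.log n ^ 2 →
  ((k : ℝ) * D) ^ 2 < (n : ℝ) ^ (1 - δ) →
  0 < n ∧ k ≤ n ∧ ∃ c m q B d : ℕ, 2 ≤ c ∧ d = f * c ∧ 1 ≤ m ∧ (d ^ 2 + 1) * (d + 1) ≤ q ∧
    q * (D + Nat.log 2 n + 2) ≤ B ∧ ((Fintype.card (Rt B d m) : ℝ)) ^ 2 * μ ≤ n ∧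
    errL (s + 1) q c d (d * m + c) μ ((k : ℝ) / (m + 1))
      (2 * μ * (Fintype.card (Rt B d m) : ℝ) / n) +
      Fintype.card (Ix B d m) * (2 * μ * (Fintype.card (Rt B d m) : ℝ) / n) ≤
    ((k : ℝ) * D) ^ 2 * (n : ℝ) ^ (δ - 1)

/-- (Z) The theorem, from (K), (P) (copy of T9h34/Q/FinalB; `gr (low lab a)` is
`labelGraph lab a`). -/
def StFinalL : Prop := ∀ δ : ℝ, 0 < δ → δ ≤ 1 → ∃ n₀ : ℕ, ∀ n k f s D a L : ℕ, n₀ ≤ n →
  1 ≤ k → 1 ≤ D → n ≤ s → 2 ≤ f → 1 ≤ a → a ≤ L →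
  f * Real.log s * Real.log (2 * L / a) ≤ δ ^ 2 / 4000 * Real.log n ^ 2 →
  ∀ (d : ℕ) (C : T9h35.RW.Circuit (Fin n × Fin n)), C.FanIn f d → C.size + C.numTests ≤ s →
  DepthLE C D →
  prob (fun x : (Sym2 (Fin n) → Fin L) × {S : Finset (Fin n) // S.card = k} =>
    C.eval (graphInput (withClique (labelGraph x.1 a) x.2.1)) = true) ≤
  prob (fun lab : Sym2 (Fin n) → Fin L => C.eval (graphInput (labelGraph lab a)) = true) +
    2 ^ C.numTests * (((k : ℝ) * D) ^ 2 * (n : ℝ) ^ (δ - 1))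

end Pool.Agent.T9h16.QL
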