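import Pool.Agent.T9h16.QL.Spec2
import Pool.Agent.T9h16.QL.Final
import Pool.Agent.T9h65.QL.StarL

set_option autoImplicit false

/-!
# The size-biased law
-/

namespace Pool.Agent.T9h16.QL

open Finset
open Pool.Agent.PC34 (prob withClique labelGraph)
open Pool.Agent.T9h34 (graphInput)
open Pool.Agent.T9h34.P (gr)
open Pool.Agent.T9h34.Q

section

variable {n k L : ℕ}

theorem card_KT (S : Finset (Fin n)) : (KT S).card = S.card.choose 2 := by
  unfold KT
  have h1 := Finset.card_sym2 S
  have h2 : (S.sym2.filter (fun e => e.IsDiag)).card = S.card := by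
    have : S.sym2.filter (fun e => e.IsDiag) = S.image Sym2.diag := by
      ext e
      induction e using Sym2.inductionOn with
      | hf x y =>
        simp only [mem_filter, mk_mem_sym2_iff, Sym2.mk_isDiag_iff, mem_image, Sym2.diag]
        constructor
        · rintro ⟨⟨hx, _⟩, rfl⟩
          exact ⟨x, hx, rfl⟩
        · rintro ⟨z, hz, h⟩
          rw [Sym2.eq_iff] at h
          rcases h with ⟨rfl, rfl⟩ | ⟨rfl, rfl⟩ <;> exact ⟨⟨hz, hz⟩, rfl⟩
    rw [this, card_image_of_injective _ Sym2.diag_injective]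
  have h3 := Finset.card_filter_add_card_filter_not (s := S.sym2) (fun e : Sym2 (Fin n) => e.IsDiag)
  have h4 : (S.card + 1).choose 2 = S.card + S.card.choose 2 := by
    rw [Nat.choose_succ_succ' S.card 1, Nat.choose_one_right]
  omega

theorem KT_inter (S T : Finset (Fin n)) : KT S ∩ KT T = KT (S ∩ T) := by
  ext e
  induction e using Sym2.inductionOn with
  | hf x y =>
    simp only [KT, mem_inter, mem_filter, mk_mem_sym2_iff]
    tauto

theorem isNClique_iff (lab : Sym2 (Fin n) → Fin L) (a k : ℕ) (S : Finset (Fin n)) :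
    (labelGraph lab a).IsNClique k S ↔ S.card = k ∧ KT S ⊆ low lab a := by
  rw [SimpleGraph.isNClique_iff, SimpleGraph.isClique_iff]
  constructor
  · rintro ⟨h1, h2⟩
    refine ⟨h2, ?_⟩
    intro e
    induction e using Sym2.inductionOn with
    | hf x y =>
      intro he
      simp only [KT, mem_filter, mk_mem_sym2_iff, Sym2.mk_isDiag_iff] at he
      have h3 := h1 he.1.1 he.1.2 he.2
      rw [labelGraph_eq] at h3
      exact h3.2
  · rintro ⟨h1, h2⟩
    refine ⟨?_, h1⟩
    intro x hx y hy hxy
    rw [labelGraph_eq]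
    refine ⟨hxy, h2 ?_⟩
    simp only [KT, mem_filter, mk_mem_sym2_iff, Sym2.mk_isDiag_iff]
    exact ⟨⟨hx, hy⟩, hxy⟩

/-- Expectation over the labels. -/
noncomputable def EL (n L : ℕ) (F : (Sym2 (Fin n) → Fin L) → ℝ) : ℝ :=
  (∑ lab, F lab) / Fintype.card (Sym2 (Fin n) → Fin L)

theorem EL_mono {F G : (Sym2 (Fin n) → Fin L) → ℝ} (h : ∀ x, F x ≤ G x) : EL n L F ≤ EL n L G :=
  div_le_div_of_nonneg_right (sum_le_sum fun x _ => h x) (Nat.cast_nonneg _)

theorem EL_add (F G : (Sym2 (Fin n) → Fin L) → ℝ) :
    EL n L (fun x => F x + G x) = EL n L F + EL n L G := by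
  unfold EL
  rw [sum_add_distrib, add_div]

theorem EL_sum {ι : Type} (s : Finset ι) (F : ι → (Sym2 (Fin n) → Fin L) → ℝ) :
    EL n L (fun x => ∑ i ∈ s, F i x) = ∑ i ∈ s, EL n L (F i) := by
  unfold EL
  rw [sum_comm, sum_div]

open Classical in
theorem prob_EL (A : (Sym2 (Fin n) → Fin L) → Prop) :
    prob A = EL n L (fun x => if A x then 1 else 0) := by
  unfold Pool.Agent.PC34.prob EL
  congr 1
  rw [card_filter]
  push_cast
  rfl

/-- Probability that given pairs are edges. -/
theorem EL_sub {a : ℕ} (ha : 1 ≤ a) (haL : a ≤ L) (K : Finset (Sym2 (Fin n)))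
    (F : Finset (Sym2 (Fin n)) → ℝ) :
    EL n L (fun lab => if K ⊆ low lab a then F (low lab a) else 0) =
      ((a : ℝ) / L) ^ K.card * EL n L (fun lab => F (low lab a ∪ K)) := by
  have h := T9h65.QL.sum_union ha haL K F
  have ha0 : (0 : ℝ) < a := by exact_mod_cast ha
  have hL0 : (0 : ℝ) < L := by exact_mod_cast (by omega : 0 < L)
  have hc : ((a : ℝ) / L) ^ K.card * ((L : ℝ) / a) ^ K.card = 1 := by
    rw [← mul_pow, div_mul_div_comm, mul_comm (L : ℝ) a, div_self (by positivity), one_pow]
  unfold EL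
  rw [h, ← mul_div_assoc, ← mul_assoc, hc, one_mul]

theorem EL_one (hL : 1 ≤ L) : EL n L (fun _ => 1) = 1 := by
  unfold EL
  have : Nonempty (Fin L) := ⟨⟨0, hL⟩⟩
  have h : (0 : ℝ) < Fintype.card (Sym2 (Fin n) → Fin L) := by
    exact_mod_cast Fintype.card_pos
  rw [sum_const, card_univ, nsmul_eq_mul, mul_one, div_self h.ne']

theorem EL_in {a : ℕ} (ha : 1 ≤ a) (haL : a ≤ L) (K : Finset (Sym2 (Fin n))) :
    EL n L (fun lab => if K ⊆ low lab a then 1 else 0) = ((a : ℝ) / L) ^ K.card := by
  rw [EL_sub ha haL K (fun _ => 1), EL_one (by omega), mul_one]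

/-- The number of `k`-cliques. -/
noncomputable def X (k a : ℕ) (lab : Sym2 (Fin n) → Fin L) : ℝ :=
  ∑ S ∈ powersetCard k (univ : Finset (Fin n)), if KT S ⊆ low lab a then 1 else 0

theorem X_nonneg (k a : ℕ) (lab : Sym2 (Fin n) → Fin L) : 0 ≤ X k a lab :=
  sum_nonneg fun S _ => by split_ifs <;> norm_num

theorem EL_X {a : ℕ} (ha : 1 ≤ a) (haL : a ≤ L) :
    EL n L (X k a) = meanCl n k ((a : ℝ) / L) := by
  unfold X
  rw [EL_sum, sum_congr rfl (fun S hS => by
    rw [EL_in ha haL, card_KT, (mem_powersetCard.1 hS).2]), sum_const, card_powersetCard,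
    card_univ, Fintype.card_fin, nsmul_eq_mul]
  rfl

/-- The planted law is the law weighted by `X / M`. -/
theorem EL_plant {a : ℕ} (ha : 1 ≤ a) (haL : a ≤ L) (F : SimpleGraph (Fin n) → ℝ) :
    EL n L (fun lab => X k a lab * F (labelGraph lab a)) =
      ((a : ℝ) / L) ^ k.choose 2 * ∑ S ∈ powersetCard k (univ : Finset (Fin n)),
        EL n L (fun lab => F (withClique (labelGraph lab a) S)) := by
  have h1 : ∀ lab : Sym2 (Fin n) → Fin L, X k a lab * F (labelGraph lab a) =
      ∑ S ∈ powersetCard k (univ : Finset (Fin n)),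
        if KT S ⊆ low lab a then F (gr (low lab a)) else 0 := by
    intro lab
    unfold X
    rw [sum_mul, labelGraph_eq]
    refine sum_congr rfl fun S _ => ?_
    split_ifs <;> simp
  rw [show (fun lab : Sym2 (Fin n) → Fin L => X k a lab * F (labelGraph lab a)) = _ from
    funext h1, EL_sum, mul_sum]
  refine sum_congr rfl fun S hS => ?_
  rw [EL_sub ha haL (KT S) (fun U => F (gr U)), card_KT, (mem_powersetCard.1 hS).2]
  congr 2
  funext lab
  rw [labelGraph_eq, withClique_gr]

open Classical in
theorem prob_plant {a : ℕ} (ha : 1 ≤ a) (haL : a ≤ L) (hk : k ≤ n) (P : SimpleGraph (Fin n) → Prop) :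
    meanCl n k ((a : ℝ) / L) *
      prob (fun x : (Sym2 (Fin n) → Fin L) × {S : Finset (Fin n) // S.card = k} =>
        P (withClique (labelGraph x.1 a) x.2.1)) =
    EL n L (fun lab => X k a lab * if P (labelGraph lab a) then 1 else 0) := by
  rw [EL_plant ha haL (fun G => if P G then 1 else 0)]
  have hc : Fintype.card {S : Finset (Fin n) // S.card = k} = n.choose k := by
    rw [Fintype.card_finset_len, Fintype.card_fin]
  have hc0 : (0 : ℝ) < n.choose k := by exact_mod_cast Nat.choose_pos hk
  have : Nonempty (Fin L) := ⟨⟨0, by omega⟩⟩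
  have h0 : (0 : ℝ) < Fintype.card (Sym2 (Fin n) → Fin L) := by
    exact_mod_cast Fintype.card_pos
  unfold meanCl Pool.Agent.PC34.prob EL
  rw [Fintype.card_prod, hc, card_filter, Nat.cast_sum]
  have h2 : ∑ x : (Sym2 (Fin n) → Fin L) × {S : Finset (Fin n) // S.card = k},
      ((if P (withClique (labelGraph x.1 a) x.2.1) then 1 else 0 : ℕ) : ℝ) =
      ∑ S ∈ powersetCard k (univ : Finset (Fin n)), ∑ lab : Sym2 (Fin n) → Fin L,
        if P (withClique (labelGraph lab a) S) then (1 : ℝ) else 0 := by
    rw [Fintype.sum_prod_type_right]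
    symm
    have h5 : ∀ f : Finset (Fin n) → ℝ, ∑ S ∈ powersetCard k (univ : Finset (Fin n)), f S =
        ∑ S : {S : Finset (Fin n) // S.card = k}, f S.1 := fun f =>
      sum_subtype (p := fun S : Finset (Fin n) => S.card = k) _
        (fun S => by simp [mem_powersetCard]) f
    rw [h5]
    refine sum_congr rfl fun S _ => sum_congr rfl fun lab _ => ?_
    push_cast
    rfl
  rw [h2, ← sum_div]
  push_cast
  field_simp

/-- The number of `k`-sets meeting a `k`-set in `j` elements. -/
theorem card_meet (S : Finset (Fin n)) (hS : S.card = k) {j : ℕ} (hj : j ≤ k) :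
    ((powersetCard k (univ : Finset (Fin n))).filter (fun S' => (S ∩ S').card = j)).card =
      k.choose j * (n - k).choose (k - j) := by
  classical
  have h : ((powersetCard k (univ : Finset (Fin n))).filter (fun S' => (S ∩ S').card = j)).card =
      (powersetCard j S ×ˢ powersetCard (k - j) Sᶜ).card := by
    refine card_bij' (fun S' _ => (S ∩ S', Sᶜ ∩ S')) (fun p _ => p.1 ∪ p.2) ?_ ?_ ?_ ?_
    · intro S' hS'
      rw [mem_filter, mem_powersetCard] at hS'
      rw [mem_product, mem_powersetCard, mem_powersetCard]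
      refine ⟨⟨inter_subset_left, hS'.2⟩, inter_subset_left, ?_⟩
      have h1 : S' = (S ∩ S') ∪ (Sᶜ ∩ S') := by
        rw [← union_inter_distrib_right, union_compl, univ_inter]
      have h2 : Disjoint (S ∩ S') (Sᶜ ∩ S') :=
        disjoint_compl_right.mono inter_subset_left inter_subset_left
      have h3 : S'.card = (S ∩ S').card + (Sᶜ ∩ S').card := by
        conv_lhs => rw [h1]
        exact card_union_of_disjoint h2
      have h4 := hS'.1.2
      simp only
      omega
    · rintro ⟨A, B⟩ hp
      rw [mem_product, mem_powersetCard, mem_powersetCard] at hp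
      obtain ⟨⟨hA, hA'⟩, hB, hB'⟩ := hp
      simp only at hA hA' hB hB' ⊢
      have h2 : Disjoint A B := disjoint_compl_right.mono hA hB
      rw [mem_filter, mem_powersetCard]
      refine ⟨⟨subset_univ _, ?_⟩, ?_⟩
      · rw [card_union_of_disjoint h2]
        omega
      · rw [inter_union_distrib_left, inter_eq_right.2 hA,
          (disjoint_iff_inter_eq_empty.1 (disjoint_compl_right.mono_right hB) : S ∩ B = ∅),
          union_empty, hA']
    · intro S' _
      simp only
      rw [← union_inter_distrib_right, union_compl, univ_inter]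
    · rintro ⟨A, B⟩ hp
      rw [mem_product, mem_powersetCard, mem_powersetCard] at hp
      obtain ⟨⟨hA, hA'⟩, hB, hB'⟩ := hp
      simp only at hA hA' hB hB' ⊢
      have h1 : S ∩ B = ∅ := disjoint_iff_inter_eq_empty.1 (disjoint_compl_right.mono_right hB)
      have h2 : Sᶜ ∩ A = ∅ := disjoint_iff_inter_eq_empty.1 (disjoint_compl_left.mono_right hA)
      rw [inter_union_distrib_left, inter_union_distrib_left, h1, h2, union_empty, empty_union,
        inter_eq_right.2 hA, inter_eq_right.2 hB]
  rw [h, card_product, card_powersetCard, card_powersetCard, hS, card_compl, hS, Fintype.card_fin]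

theorem EL_XX {a : ℕ} (ha : 1 ≤ a) (haL : a ≤ L) (hk : k ≤ n) :
    EL n L (fun lab => X k a lab ^ 2) =
      meanCl n k ((a : ℝ) / L) ^ 2 * ratio2 n k ((a : ℝ) / L) := by
  classical
  have hp0 : (0 : ℝ) < (a : ℝ) / L := by
    have ha0 : (0 : ℝ) < a := by exact_mod_cast ha
    have hL0 : (0 : ℝ) < L := by exact_mod_cast (by omega : 0 < L)
    positivity
  set p : ℝ := (a : ℝ) / L with hp
  have h1 : ∀ lab : Sym2 (Fin n) → Fin L, X k a lab ^ 2 =
      ∑ S ∈ powersetCard k (univ : Finset (Fin n)), ∑ S' ∈ powersetCard k (univ : Finset (Fin n)),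
        if KT S ∪ KT S' ⊆ low lab a then 1 else 0 := by
    intro lab
    unfold X
    rw [sq, sum_mul_sum]
    refine sum_congr rfl fun S _ => sum_congr rfl fun S' _ => ?_
    by_cases g1 : KT S ⊆ low lab a
    · by_cases g2 : KT S' ⊆ low lab a
      · rw [if_pos g1, if_pos g2, if_pos (union_subset g1 g2), mul_one]
      · rw [if_pos g1, if_neg g2, if_neg (fun h => g2 (union_subset_right h)), mul_zero]
    · rw [if_neg g1, if_neg (fun h => g1 (union_subset_left h)), zero_mul]
  rw [show (fun lab : Sym2 (Fin n) → Fin L => X k a lab ^ 2) = _ from funext h1, EL_sum]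
  have h2 : ∀ S ∈ powersetCard k (univ : Finset (Fin n)),
      EL n L (fun lab => ∑ S' ∈ powersetCard k (univ : Finset (Fin n)),
        if KT S ∪ KT S' ⊆ low lab a then (1 : ℝ) else 0) =
      p ^ k.choose 2 * (meanCl n k p * ratio2 n k p) := by
    intro S hS
    have hSk := (mem_powersetCard.1 hS).2
    rw [EL_sum]
    have h3 : ∀ S' ∈ powersetCard k (univ : Finset (Fin n)),
        EL n L (fun lab => if KT S ∪ KT S' ⊆ low lab a then (1 : ℝ) else 0) =
        p ^ k.choose 2 * p ^ (k.choose 2 - (S ∩ S').card.choose 2) := by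
      intro S' hS'
      have hSk' := (mem_powersetCard.1 hS').2
      rw [EL_in ha haL, ← pow_add]
      congr 1
      have h4 := card_union_add_card_inter (KT S) (KT S')
      rw [KT_inter, card_KT, card_KT, card_KT, hSk, hSk'] at h4
      have h5 : (S ∩ S').card.choose 2 ≤ k.choose 2 :=
        Nat.choose_le_choose 2 (hSk ▸ card_le_card inter_subset_left)
      omega
    rw [sum_congr rfl h3, ← mul_sum]
    congr 1
    have h6 : ∀ S' ∈ powersetCard k (univ : Finset (Fin n)), (S ∩ S').card ∈ range (k + 1) := by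
      intro S' _
      rw [mem_range]
      have := card_le_card (inter_subset_left (s₁ := S) (s₂ := S'))
      omega
    rw [← sum_fiberwise_of_maps_to h6]
    unfold ratio2
    have hM : meanCl n k p ≠ 0 := by
      unfold meanCl
      have hc0 : (0 : ℝ) < n.choose k := by exact_mod_cast Nat.choose_pos hk
      positivity
    rw [mul_sum]
    refine sum_congr rfl fun j hj => ?_
    rw [sum_congr rfl (fun S' hS' => by rw [(mem_filter.1 hS').2]), sum_const, nsmul_eq_mul,
      card_meet S hSk (by rw [mem_range] at hj; omega)]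
    field_simp
  rw [sum_congr rfl h2, sum_const, card_powersetCard, card_univ, Fintype.card_fin, nsmul_eq_mul,
    sq, ← mul_assoc, ← mul_assoc]
  rfl

theorem cs (F G : (Sym2 (Fin n) → Fin L) → ℝ) :
    EL n L (fun x => F x * G x) ^ 2 ≤ EL n L (fun x => F x ^ 2) * EL n L (fun x => G x ^ 2) := by
  unfold EL
  rw [div_pow, div_mul_div_comm, ← sq]
  exact div_le_div_of_nonneg_right (sum_mul_sq_le_sq_mul_sq _ _ _) (by positivity)

open Classical in
theorem X_pos_iff (k a : ℕ) (lab : Sym2 (Fin n) → Fin L) :
    (¬ ∃ S : Finset (Fin n), (labelGraph lab a).IsNClique k S) → X k a lab = 0 := by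
  intro h
  unfold X
  refine sum_eq_zero fun S hS => ?_
  rw [if_neg]
  intro h2
  exact h ⟨S, (isNClique_iff lab a k S).2 ⟨(mem_powersetCard.1 hS).2, h2⟩⟩

theorem X_ge_one (k a : ℕ) (lab : Sym2 (Fin n) → Fin L)
    (h : ∃ S : Finset (Fin n), (labelGraph lab a).IsNClique k S) : 1 ≤ X k a lab := by
  obtain ⟨S, hS⟩ := h
  obtain ⟨h1, h2⟩ := (isNClique_iff lab a k S).1 hS
  unfold X
  have h3 := single_le_sum (f := fun S => if KT S ⊆ low lab a then (1 : ℝ) else 0)
    (s := powersetCard k (univ : Finset (Fin n))) (fun S _ => by split_ifs <;> norm_num)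
    (mem_powersetCard.2 ⟨subset_univ S, h1⟩)
  rw [if_pos h2] at h3
  exact h3

/-- (N) -/
theorem stBias : StBias := by
  classical
  intro n k a L P ε η hk2 hk ha haL h1 h2
  have hp0 : (0 : ℝ) < (a : ℝ) / L := by
    have ha0 : (0 : ℝ) < a := by exact_mod_cast ha
    have hL0 : (0 : ℝ) < L := by exact_mod_cast (by omega : 0 < L)
    positivity
  have hM : 0 < meanCl n k ((a : ℝ) / L) := by
    unfold meanCl
    have hc0 : (0 : ℝ) < n.choose k := by exact_mod_cast Nat.choose_pos hk
    positivity
  have hpl := prob_plant (L := L) ha haL hk P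
  have hX := EL_X (n := n) (k := k) (L := L) ha haL
  have hXX := EL_XX (n := n) (k := k) (L := L) ha haL hk
  rw [prob_EL] at h2
  replace h2 : EL n L (fun lab => if ¬ (P (labelGraph lab a) ↔
      ∃ S : Finset (Fin n), (labelGraph lab a).IsNClique k S) then 1 else 0) ≤ η := by
    convert h2
  rw [prob_EL (fun lab : Sym2 (Fin n) → Fin L => P (labelGraph lab a))] at h1
  set M := meanCl n k ((a : ℝ) / L)
  set R := ratio2 n k ((a : ℝ) / L)
  set pl := prob (fun x : (Sym2 (Fin n) → Fin L) × {S : Finset (Fin n) // S.card = k} =>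
      P (withClique (labelGraph x.1 a) x.2.1))
  set er : (Sym2 (Fin n) → Fin L) → ℝ := fun lab =>
    if ¬ (P (labelGraph lab a) ↔ ∃ S : Finset (Fin n), (labelGraph lab a).IsNClique k S)
      then 1 else 0 with her
  set pr := EL n L (fun x => if P (labelGraph x a) then (1 : ℝ) else 0)
  replace h2 : EL n L er ≤ η := h2
  have hcs := cs (n := n) (L := L) (X k a) er
  have her2 : (fun x => er x ^ 2) = er := by
    funext x
    rw [her]
    simp only
    split_ifs <;> norm_num
  rw [her2, hXX] at hcs
  have hR : 0 ≤ R := by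
    by_contra hc
    push Not at hc
    have : EL n L (fun lab => X k a lab ^ 2) < 0 := by
      rw [hXX]
      nlinarith [mul_pos hM hM]
    have h0 : 0 ≤ EL n L (fun lab => X k a lab ^ 2) := by
      unfold EL
      exact div_nonneg (sum_nonneg fun x _ => sq_nonneg _) (Nat.cast_nonneg _)
    linarith
  have hE : EL n L (fun x => X k a x * er x) ≤ M * Real.sqrt (η * R) := by
    have h3 : EL n L (fun x => X k a x * er x) ^ 2 ≤ (M * Real.sqrt (η * R)) ^ 2 := by
      rw [mul_pow, Real.sq_sqrt (mul_nonneg ?_ hR)]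
      · calc _ ≤ M ^ 2 * R * EL n L er := hcs
          _ ≤ M ^ 2 * R * η := by gcongr
          _ = _ := by ring
      · refine le_trans ?_ h2
        unfold EL
        exact div_nonneg (sum_nonneg fun x _ => by
          rw [her]
          simp only
          split_ifs <;> norm_num) (Nat.cast_nonneg _)
    exact le_of_sq_le_sq h3 (by positivity)
  have hA : M ≤ EL n L (fun lab => X k a lab * if P (labelGraph lab a) then 1 else 0) +
      EL n L (fun x => X k a x * er x) := by
    rw [← EL_add, ← hX]
    refine EL_mono fun x => ?_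
    rw [her]
    simp only
    by_cases hP : P (labelGraph x a)
    · rw [if_pos hP, mul_one]
      have := mul_nonneg (X_nonneg k a x) (show (0 : ℝ) ≤ if ¬ (P (labelGraph x a) ↔
        ∃ S : Finset (Fin n), (labelGraph x a).IsNClique k S) then 1 else 0 by
          split_ifs <;> norm_num)
      linarith
    · by_cases hQ : ∃ S : Finset (Fin n), (labelGraph x a).IsNClique k S
      · rw [if_neg hP, if_pos (by tauto)]
        linarith
      · rw [X_pos_iff k a x hQ]
        simp
  have hB : pr ≤ M + EL n L er := by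
    rw [← hX, ← EL_add]
    refine EL_mono fun x => ?_
    rw [her]
    simp only
    by_cases hP : P (labelGraph x a)
    · by_cases hQ : ∃ S : Finset (Fin n), (labelGraph x a).IsNClique k S
      · have := X_ge_one k a x hQ
        rw [if_pos hP, if_neg (by tauto)]
        linarith
      · rw [if_pos hP, if_pos (by tauto)]
        linarith [X_nonneg k a x]
    · rw [if_neg hP]
      have : (0 : ℝ) ≤ if ¬ (P (labelGraph x a) ↔
        ∃ S : Finset (Fin n), (labelGraph x a).IsNClique k S) then 1 else 0 := by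
          split_ifs <;> norm_num
      linarith [X_nonneg k a x]
  rw [← hpl] at hA
  have hC : M * (1 - Real.sqrt (η * R)) ≤ M * pl := by linarith
  have hD := le_of_mul_le_mul_left hC hM
  linarith

end

end Pool.Agent.T9h16.QL
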