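import Pool.Agent.T9h16.QL.Spec2

set_option autoImplicit false

/-!
# The average case at the threshold
-/

namespace Pool.Agent.T9h16.QL

open Finset Filter Topology
open Pool.Agent.PC34 (prob withClique labelGraph)
open Pool.Agent.T9h34 (graphInput)
open Pool.Agent.HC34 (srcs IsLevel DepthLE)
open Pool.Agent.T9h34.Q

theorem stAvg (hF : StFinalL) (hN : StBias) (hM : StThr) : StAvg := by
  intro δ hδ hδ1 k hk
  have hk1 : (1 : ℝ) < k := by
    have h1 : (0 : ℝ) < δ ^ 2 * ((k : ℝ) - 1) := lt_of_lt_of_le (by norm_num) hk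
    have h2 : (0 : ℝ) < (k : ℝ) - 1 := by
      by_contra hc
      push Not at hc
      have : δ ^ 2 * ((k : ℝ) - 1) ≤ 0 := mul_nonpos_of_nonneg_of_nonpos (by positivity) hc
      linarith
    linarith
  have hk2 : (24001 : ℝ) ≤ k := by
    have h1 : δ ^ 2 ≤ 1 := by nlinarith
    nlinarith
  have hkN : 24001 ≤ k := by exact_mod_cast hk2
  obtain ⟨n₁, hn₁⟩ := hF δ hδ (by linarith)
  obtain ⟨n₂, hn₂⟩ := hM k (by omega)
  have hlim : Tendsto (fun n : ℕ => (k : ℝ) ^ 2 * (n : ℝ) ^ (-δ)) atTop (𝓝 0) := by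
    have h1 := (tendsto_rpow_neg_atTop hδ).comp tendsto_natCast_atTop_atTop
    have h2 := h1.const_mul ((k : ℝ) ^ 2)
    rw [mul_zero] at h2
    exact h2
  obtain ⟨n₃, hn₃⟩ := (hlim.eventually (gt_mem_nhds (show (0 : ℝ) < 1 / 100 by norm_num))).exists_forall_of_atTop
  refine ⟨max (max n₁ n₂) (max n₃ (max k 2)), ?_⟩
  intro n D a L hn hD ha haL hM1 hM2 d C hC hdep hsize hT
  have g1 : n₁ ≤ n := le_trans (le_trans (le_max_left _ _) (le_max_left _ _)) hn
  have g2 : n₂ ≤ n := le_trans (le_trans (le_max_right _ _) (le_max_left _ _)) hn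
  have g3 : n₃ ≤ n := le_trans (le_trans (le_max_left _ _) (le_max_right _ _)) hn
  have g4 : k ≤ n := le_trans (le_trans (le_trans (le_max_left _ _) (le_max_right _ _))
    (le_max_right _ _)) hn
  have g5 : 2 ≤ n := le_trans (le_trans (le_trans (le_max_right _ _) (le_max_right _ _))
    (le_max_right _ _)) hn
  have hn1 : (1 : ℝ) < n := by exact_mod_cast g5
  have hn0 : (0 : ℝ) < n := by linarith
  have hlogn : 0 < Real.log n := Real.log_pos hn1
  obtain ⟨h2a, h2b⟩ := hn₂ n a L g2 ha haL hM1 hM2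
  set r : ℝ := δ ^ 2 * ((k : ℝ) - 1) / 24000 with hr
  have hr1 : 1 ≤ r := by rw [hr, le_div_iff₀ (by norm_num)]; linarith
  set s : ℕ := ⌊(n : ℝ) ^ r⌋₊ with hs
  have hns : n ≤ s := by
    rw [hs]
    apply Nat.le_floor
    calc (n : ℝ) = (n : ℝ) ^ (1 : ℝ) := (Real.rpow_one _).symm
      _ ≤ (n : ℝ) ^ r := Real.rpow_le_rpow_of_exponent_le hn1.le hr1
  have hs0 : (0 : ℝ) < s := by
    have : 0 < s := by omega
    exact_mod_cast this
  have hlogs : Real.log s ≤ r * Real.log n := by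
    rw [← Real.log_rpow hn0]
    apply Real.log_le_log hs0
    exact Nat.floor_le (by positivity)
  have hlogs0 : 0 ≤ Real.log s := Real.log_nonneg (by
    have : (1 : ℕ) ≤ s := by omega
    exact_mod_cast this)
  have hcond : ((2 : ℕ) : ℝ) * Real.log s * Real.log (2 * L / a) ≤ δ ^ 2 / 4000 * Real.log n ^ 2 := by
    have hk0 : (0 : ℝ) < (k : ℝ) - 1 := by linarith
    calc ((2 : ℕ) : ℝ) * Real.log s * Real.log (2 * L / a)
        ≤ ((2 : ℕ) : ℝ) * Real.log s * (3 / (k - 1) * Real.log n) :=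
          mul_le_mul_of_nonneg_left h2b (by positivity)
      _ ≤ ((2 : ℕ) : ℝ) * (r * Real.log n) * (3 / (k - 1) * Real.log n) := by
          refine mul_le_mul_of_nonneg_right ?_ (by positivity)
          exact mul_le_mul_of_nonneg_left hlogs (by positivity)
      _ = δ ^ 2 / 4000 * Real.log n ^ 2 := by
          rw [hr]
          push_cast
          field_simp
          ring
  have hsz : C.size + C.numTests ≤ s := by
    rw [hs]
    exact Nat.le_floor hsize
  have key := hn₁ n k 2 s D a L g1 (by omega) hD hns le_rfl ha haL hcond d C hC hsz hdep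
  set ε : ℝ := 2 ^ C.numTests * (((k : ℝ) * D) ^ 2 * (n : ℝ) ^ (δ - 1)) with hε
  have hε1 : ε ≤ 1 / 100 := by
    have h1 : ε = (k : ℝ) ^ 2 * ((2 ^ C.numTests * (D : ℝ) ^ 2) * (n : ℝ) ^ (δ - 1)) := by
      rw [hε]; ring
    have h2 : (2 ^ C.numTests * (D : ℝ) ^ 2) * (n : ℝ) ^ (δ - 1) ≤ (n : ℝ) ^ (-δ) := by
      calc (2 ^ C.numTests * (D : ℝ) ^ 2) * (n : ℝ) ^ (δ - 1)
          ≤ (n : ℝ) ^ (1 - 2 * δ) * (n : ℝ) ^ (δ - 1) :=
            mul_le_mul_of_nonneg_right hT (by positivity)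
        _ = (n : ℝ) ^ (-δ) := by
            rw [← Real.rpow_add hn0]
            congr 1
            ring
    rw [h1]
    exact (mul_le_mul_of_nonneg_left h2 (by positivity)).trans (hn₃ n g3).le
  by_contra hcon
  rw [not_le] at hcon
  have hb := hN n k a L (fun G => C.eval (graphInput G) = true) ε _ (by omega) g4 ha haL key le_rfl
  set η : ℝ := prob (fun lab : Sym2 (Fin n) → Fin L =>
    ¬ (C.eval (graphInput (labelGraph lab a)) = true ↔
      ∃ S : Finset (Fin n), (labelGraph lab a).IsNClique k S)) with hη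
  have hη0 : 0 ≤ η := by
    classical
    rw [hη]
    unfold Pool.Agent.PC34.prob
    positivity
  have hsq : Real.sqrt (η * ratio2 n k ((a : ℝ) / L)) ≤ 0.35 := by
    rw [Real.sqrt_le_left (by norm_num)]
    calc η * ratio2 n k ((a : ℝ) / L) ≤ η * 6 := mul_le_mul_of_nonneg_left h2a hη0
      _ ≤ 1 / 50 * 6 := mul_le_mul_of_nonneg_right hcon.le (by norm_num)
      _ ≤ 0.35 ^ 2 := by norm_num
  have h9 : 1 - meanCl n k ((a : ℝ) / L) - ε - η ≤ 0.35 := hb.trans hsq
  norm_num at h9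
  linarith

end Pool.Agent.T9h16.QL
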