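import Pool.Agent.T9h16.QL.Spec2
import Pool.Agent.T9h51.QC.Sum
import Pool.Agent.T9h51.QL.CountL1

set_option autoImplicit false

/-!
# Counting the edges, every density
-/

namespace Pool.Agent.T9h16.QL

open Finset
open Pool.Agent.PC34 (prob withClique labelGraph)
open Pool.Agent.T9h34 (graphInput)
open Pool.Agent.HC34 (srcs IsLevel DepthLE)
open Pool.Agent.T9h34.Q

theorem countingL : ∃ c : ℝ, 0 < c ∧ ∀ n k a L : ℕ, 2 ≤ k → k ^ 2 ≤ n → 1 ≤ a → a ≤ L →
    ∃ C : T9h35.RW.Circuit (Fin n × Fin n),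
      C.FanIn 2 0 ∧ C.numTests = 0 ∧ C.size ≤ 2 * n ^ 2 ∧ DepthLE C (2 * Nat.log 2 n + 2) ∧
      prob (fun lab : Sym2 (Fin n) → Fin L => C.eval (graphInput (labelGraph lab a)) = true) +
        c * (1 - (a : ℝ) / L) * (k ^ 2 / n) ≤
      prob (fun x : (Sym2 (Fin n) → Fin L) × {S : Finset (Fin n) // S.card = k} =>
        C.eval (graphInput (withClique (labelGraph x.1 a) x.2.1)) = true) := by
  obtain ⟨c, hc, h1⟩ := T9h51.QL.stCountL1
  refine ⟨c, hc, ?_⟩
  intro n k a L hk hkn ha haL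
  have hn : 2 ≤ n := by nlinarith
  obtain ⟨θ, hθ⟩ := h1 n k a L hk hkn ha haL
  obtain ⟨C, hC1, hC2, hC3, hC4, hC5⟩ := T9h51.QC.stSum n hn θ
  refine ⟨C, hC1, hC2, hC3, hC4, ?_⟩
  have e1 : (fun lab : Sym2 (Fin n) → Fin L => C.eval (graphInput (labelGraph lab a)) = true) =
      (fun lab : Sym2 (Fin n) → Fin L =>
        θ ≤ ∑ p : Fin n × Fin n,
          (if graphInput (labelGraph lab a) p = true then (1 : ℝ) else 0)) := by
    funext G
    exact propext (hC5 _)
  have e2 : (fun x : (Sym2 (Fin n) → Fin L) × {S : Finset (Fin n) // S.card = k} =>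
      C.eval (graphInput (withClique (labelGraph x.1 a) x.2.1)) = true) =
      (fun x : (Sym2 (Fin n) → Fin L) × {S : Finset (Fin n) // S.card = k} =>
      θ ≤ ∑ p : Fin n × Fin n,
      (if graphInput (withClique (labelGraph x.1 a) x.2.1) p = true then (1 : ℝ) else 0)) := by
    funext x
    exact propext (hC5 _)
  rw [e1, e2]
  exact hθ

end Pool.Agent.T9h16.QL
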