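import Pool.Agent.T9h16.QL.Spec
import Pool.Agent.T9h68.QC.TV

/-!
# Piece (H2): all random stars together, with labels
-/

set_option autoImplicit false
set_option linter.unusedSectionVars false

namespace Pool.Agent.T9h16.QL

open Finset
open Pool.Agent.PC34 (prob)
open Pool.Agent.T9h34.Q
open Pool.Agent.T9h68.QC (prob_eq sum_update prob_env)

open Classical in
theorem manyL {Γ E P κ : Type} [Fintype Γ] [Fintype E] [DecidableEq E] [Fintype P] [Fintype κ]
    [Fintype (κ → P)] (g : Γ → Finset E) (st : P → Finset E) {δ : ℝ}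
    (hst : ∀ Θ : Finset E → Prop,
      ∑ p, ∑ G : Γ, (if Θ (g G ∪ st p) then (1 : ℝ) else 0) ≤
        Fintype.card P * ((∑ G : Γ, if Θ (g G) then (1 : ℝ) else 0) + δ))
    (Θ : Finset E → Prop) (hP : 0 < Fintype.card P) (I : Finset κ) :
    ∑ pk : κ → P, ∑ G : Γ, (if Θ (g G ∪ I.biUnion fun i => st (pk i)) then (1 : ℝ) else 0) ≤
      Fintype.card (κ → P) * ((∑ G : Γ, if Θ (g G) then (1 : ℝ) else 0) + I.card * δ) := by
  induction I using Finset.induction_on with
  | empty =>
    simp
  | insert i I hi ih =>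
    have hP' : (0 : ℝ) < Fintype.card P := by exact_mod_cast hP
    have h1 := sum_update i (fun pk : κ → P =>
      ∑ G : Γ, (if Θ (g G ∪ (insert i I).biUnion fun i => st (pk i)) then (1 : ℝ) else 0))
    have h2 : ∀ (pk : κ → P) (p : P) (G : Γ),
        (g G ∪ (insert i I).biUnion fun j => st (Function.update pk i p j)) =
        (g G ∪ st p) ∪ I.biUnion fun j => st (pk j) := by
      intro pk p G
      rw [biUnion_insert, Function.update_self, union_assoc]
      congr 2
      refine biUnion_congr rfl fun j hj => ?_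
      rw [Function.update_of_ne]
      rintro rfl
      exact hi hj
    simp only [h2] at h1
    have h3 : ∀ pk : κ → P,
        ∑ p, ∑ G : Γ, (if Θ ((g G ∪ st p) ∪ I.biUnion fun j => st (pk j)) then (1 : ℝ) else 0) ≤
        Fintype.card P * ((∑ G : Γ,
          if Θ (g G ∪ I.biUnion fun j => st (pk j)) then (1 : ℝ) else 0) + δ) := fun pk =>
      hst (fun G => Θ (G ∪ I.biUnion fun j => st (pk j)))
    have h4 := sum_le_sum fun pk (_ : pk ∈ (univ : Finset (κ → P))) => h3 pk
    rw [h1, ← mul_sum] at h4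
    have h5 := le_of_mul_le_mul_left h4 hP'
    refine h5.trans ?_
    rw [sum_add_distrib, sum_const, card_univ, nsmul_eq_mul, card_insert_of_notMem hi]
    push_cast
    linarith

/-- (H2) -/
theorem stTVL (hStar : StStarL) : StTVL := by
  classical
  intro V _ _ _ L a B d m ha haL hR Θ
  have h1 := hStar V (Rt B d m) L a ha haL hR
  have : Nonempty (Fin L) := ⟨⟨0, by omega⟩⟩
  have hM0 : (0 : ℝ) < (Fintype.card (Sym2 V → Fin L) : ℝ) := by exact_mod_cast Fintype.card_pos
  have hP : 0 < Fintype.card (Option (Rt B d m) → V) := Fintype.card_pos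
  have hP' : (0 : ℝ) < Fintype.card (Option (Rt B d m) → V) := by exact_mod_cast hP
  have hst : ∀ Θ : Finset (Sym2 V) → Prop,
      ∑ p : Option (Rt B d m) → V, ∑ G : Sym2 V → Fin L,
        (if Θ (low G a ∪ Pool.Agent.T9h34.Q.star p) then (1 : ℝ) else 0) ≤
      Fintype.card (Option (Rt B d m) → V) *
        ((∑ G : Sym2 V → Fin L, if Θ (low G a) then (1 : ℝ) else 0) +
          2 * ((L : ℝ) / a) * (Fintype.card (Rt B d m) : ℝ) / Fintype.card V *
            Fintype.card (Sym2 V → Fin L)) := by
    intro Θ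
    have h2 := h1 Θ
    rw [prob_eq, prob_eq, Fintype.card_prod, Fintype.sum_prod_type, sum_comm] at h2
    push_cast at h2
    rw [div_le_iff₀ (by positivity)] at h2
    refine h2.trans (le_of_eq ?_)
    generalize 2 * ((L : ℝ) / a) * (Fintype.card (Rt B d m) : ℝ) / Fintype.card V = δ at *
    have hM1 : (Fintype.card (Sym2 V → Fin L) : ℝ) ≠ 0 := hM0.ne'
    have hcast : ((L : ℝ) ^ Fintype.card (Sym2 V)) = (Fintype.card (Sym2 V → Fin L) : ℝ) := by
      rw [Fintype.card_fun, Fintype.card_fin]
      push_cast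
      rfl
    generalize hM : (Fintype.card (Sym2 V → Fin L) : ℝ) = M at *
    field_simp
  have hix : ixBelow B d m B = univ := by
    unfold ixBelow
    rw [filter_eq_self]
    intro i _
    exact i.1.2
  have h2 := prob_env (G := Sym2 V → Fin L) (Pk := Ix B d m → Packet V B d m)
    (Nu := V → Ix B d m → V) (fun G pk => Θ (low G a ∪ univ.biUnion fun i =>
      Pool.Agent.T9h34.Q.star (pk i)))
  have h3 : (fun ω : EnvL V L B d m => Θ (stage (toEnv a ω) B)) =
      fun ω : (Sym2 V → Fin L) × (Ix B d m → Packet V B d m) × (V → Ix B d m → V) =>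
        Θ (low ω.1 a ∪ univ.biUnion fun i => Pool.Agent.T9h34.Q.star (ω.2.1 i)) := by
    funext ω
    unfold stage toEnv
    rw [hix]
  have h4 : (0 : ℝ) < Fintype.card (Ix B d m → Packet V B d m) := by
    exact_mod_cast Fintype.card_pos
  have h5 : prob (fun ω : EnvL V L B d m => Θ (stage (toEnv a ω) B)) =
      (∑ pk : Ix B d m → Packet V B d m, ∑ G : Sym2 V → Fin L,
        if Θ (low G a ∪ univ.biUnion fun i => Pool.Agent.T9h34.Q.star (pk i)) then (1 : ℝ)
          else 0) /
      (Fintype.card (Sym2 V → Fin L) * Fintype.card (Ix B d m → Packet V B d m)) := by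
    rw [h3, ← h2]
  rw [h5, prob_eq, div_le_iff₀ (by positivity)]
  refine (manyL (fun G : Sym2 V → Fin L => low G a)
    (Pool.Agent.T9h34.Q.star (ρ := Rt B d m) (V := V)) hst Θ hP univ).trans
    (le_of_eq ?_)
  rw [card_univ]
  generalize (Fintype.card (Sym2 V → Fin L) : ℝ) = M at *
  generalize (Fintype.card (Ix B d m → Packet V B d m) : ℝ) = κ at *
  generalize 2 * ((L : ℝ) / a) * (Fintype.card (Rt B d m) : ℝ) / Fintype.card V = δ at *
  generalize (∑ G : Sym2 V → Fin L, if Θ (low G a) then (1 : ℝ) else 0) = S at *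
  field_simp

end Pool.Agent.T9h16.QL
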