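import Pool.Agent.T9h16.QL.Final
import Pool.Agent.T9h16.QL.Avg
import Pool.Agent.T9h16.QL.TVL
import Pool.Agent.T9h12.QC.X5
import Pool.Agent.T9h12.QL.ExtraL
import Pool.Agent.T9h12.QL.AllTVL
import Pool.Agent.T9h34.Q.MainX
import Pool.Agent.T9h35.QL.X7L
import Pool.Agent.T9h36.QC.Detector
import Pool.Agent.T9h41.QL.BadL
import Pool.Agent.T9h41.QL.BadIn
import Pool.Agent.T9h41.QL.BadOut
import Pool.Agent.T9h41.QL.Thr
import Pool.Agent.T9h46.QL.ParamsL
import Pool.Agent.T9h51.QC.CircB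
import Pool.Agent.T9h51.QC.Sum
import Pool.Agent.T9h51.QL.CountL
import Pool.Agent.T9h51.QL.MonoL
import Pool.Agent.T9h65.QL.StarL
import Pool.Agent.T9h69.QC.RotB
import Pool.Agent.T9h71.QC.Det
import Pool.Agent.T9h71.QL.ExchL
import Pool.Agent.T9h73.QL.ChangeL
import Pool.Agent.T9h75.QC.Reduce
import Pool.Agent.T9h75.QC.Cover
import Pool.Agent.T9h75.QC.UniqueB
import Pool.Agent.T9h75.QC.Walk
import Pool.Agent.T9h75.QL.AllL
import Pool.Agent.T9h77.QL.X6L
import Pool.Agent.T9h16.QL.Bias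

set_option autoImplicit false

/-!
# Planted cliques in G(n, p), every density: assembly
-/

namespace Pool.Agent.T9h16.QL

open Finset
open Pool.Agent.PC34 (prob withClique labelGraph)
open Pool.Agent.T9h34 (graphInput)
open Pool.Agent.HC34 (srcs IsLevel DepthLE)
open Pool.Agent.T9h34.Q

theorem exchL : StExchL :=
  T9h71.QL.stExchL T9h71.QC.stDet (T9h69.QC.stRotB T9h75.QC.stUniqueB) T9h75.QC.stFibre

theorem shapeL : StShapeL :=
  T9h71.QL.stShapeL T9h75.QC.stCover (T9h12.QL.stExtraL T9h73.QL.stChangeL)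

theorem badIn : StBadIn := T9h41.QL.stBadIn exchL shapeL T9h41.QL.stBadL

theorem badOut : StBadOut :=
  T9h41.QL.stBadOut exchL shapeL T9h41.QL.stBadL (T9h12.QL.stAllTVL T9h65.QL.stStarL)

theorem monoL : StMonoL :=
  T9h51.QL.stMonoL badIn badOut (T9h51.QC.stCircB T9h75.QC.stReduce)

theorem allL : StAllL :=
  T9h75.QL.stAllL monoL T9h36.QC.stDetector T9h36.QC.stReads (stTVL T9h65.QL.stStarL)

/-- **Planted cliques in G(n, p), every density.** -/
theorem finalL : StFinalL := stFinalL allL T9h46.QL.stParamsL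

/-- **The average case at the threshold.** -/
theorem avgL : StAvg := stAvg finalL stBias T9h41.QL.stThr

/-- **From any circuit to circuits with few tests.** -/
theorem slicesL : StP7L :=
  T9h35.QL.stP7L (T9h12.QC.stP5 T9h67.QC.stP0 T9h67.QC.stP1 T9h67.QC.stP2 T9h67.QC.stP3
    (T9h35.QC.stP4 T9h67.QC.stP1)) T9h77.QL.stP6L

end Pool.Agent.T9h16.QL
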