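import Pool.Agent.T9h16.QL.Spec
import Pool.Agent.T9h34.Q.Spec4
import Pool.Agent.T9h34.Q.Spec5

set_option autoImplicit false

/-!
# Planted cliques in G(n, p) for every density: counting edges, and slices

The probabilistic pieces of `Pool.Agent.T9h34.Q.Spec4` and `Spec5` with labels.
-/

namespace Pool.Agent.T9h16.QL

open Finset
open Pool.Agent.PC34 (prob withClique labelGraph)
open Pool.Agent.T9h34 (graphInput)
open Pool.Agent.HC34 (srcs IsLevel DepthLE)
open Pool.Agent.T9h34.Q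

/-- (S1L) as `StCount` (T9h51/QC/Count).  The expected number of new edges is
`k * (k - 1) / 2 * (1 - p)`, `p = a / L`, and the variance of the number of edges is at most
`n ^ 2 / 8` as before (`p * (1 - p) ≤ 1 / 4`); thresholds `|θ - p * N| > C * n / sqrt (1 - p)` or,
simpler: bound the contribution of the far thresholds by the number of the new edges that are not in
`G` (its expectation given `S`) times the probability that the number of the other edges is far from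
the mean, which is independent.  If `a = L` then the claim is trivial with `θ = 0`. -/
def StCountL : Prop := ∃ c : ℝ, 0 < c ∧ ∀ n k a L : ℕ, 2 ≤ k → k ^ 2 ≤ n → 1 ≤ a → a ≤ L →
  ∃ θ : ℝ,
  prob (fun lab : Sym2 (Fin n) → Fin L =>
    θ ≤ ∑ p : Fin n × Fin n, (if graphInput (labelGraph lab a) p = true then (1 : ℝ) else 0)) +
    c * (1 - (a : ℝ) / L) ^ 2 * (k ^ 2 / n) ≤
  prob (fun x : (Sym2 (Fin n) → Fin L) × {S : Finset (Fin n) // S.card = k} =>
    θ ≤ ∑ p : Fin n × Fin n,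
      (if graphInput (withClique (labelGraph x.1 a) x.2.1) p = true then (1 : ℝ) else 0))

/-- (X6L) as `StP6` (T9h77/QC/X6): only the mean and the bound for the variance of the number of
ordered adjacent pairs (`2 * n * (n - 1) * p * (1 - p) ≤ n * (n - 1) / 2`) are used. -/
def StP6L : Prop := ∃ c : ℝ, 0 < c ∧ ∀ (n k W a L : ℕ), 2 ≤ n → k ≤ n → 1 ≤ W → W ≤ n →
  1 ≤ a → a ≤ L →
  ∀ (P : SimpleGraph (Fin n) → Prop) (α : ℝ), 0 < α → α ≤ 1 →
  prob (fun lab : Sym2 (Fin n) → Fin L => P (labelGraph lab a)) + α ≤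
    prob (fun x : (Sym2 (Fin n) → Fin L) × {S : Finset (Fin n) // S.card = k} =>
      P (withClique (labelGraph x.1 a) x.2.1)) →
  ∃ θ : ℕ,
    prob (fun lab : Sym2 (Fin n) → Fin L => θ + W ≤ ones (graphInput (labelGraph lab a)) ∨
      (θ ≤ ones (graphInput (labelGraph lab a)) ∧
        ones (graphInput (labelGraph lab a)) < θ + W ∧ P (labelGraph lab a))) +
      c * α ^ 2 * (W / n) ≤
    prob (fun x : (Sym2 (Fin n) → Fin L) × {S : Finset (Fin n) // S.card = k} =>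
      θ + W ≤ ones (graphInput (withClique (labelGraph x.1 a) x.2.1)) ∨
      (θ ≤ ones (graphInput (withClique (labelGraph x.1 a) x.2.1)) ∧
        ones (graphInput (withClique (labelGraph x.1 a) x.2.1)) < θ + W ∧
        P (withClique (labelGraph x.1 a) x.2.1)))

/-- (X7L) as `StP7` (T9h34/Q/X7), from (X5) `StP5`, (X6L). -/
def StP7L : Prop := ∃ c : ℝ, 0 < c ∧ ∀ (n k f d' DA T a L : ℕ)
  (A : T9h35.RW.Circuit (Fin n × Fin n))
  (α : ℝ), 2 ≤ n → k ≤ n → 2 ^ T ≤ n → 2 ≤ f → A.FanIn f d' → 2 * d' ≤ f → DepthLE A DA →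
  1 ≤ a → a ≤ L → 0 < α → α ≤ 1 →
  prob (fun lab : Sym2 (Fin n) → Fin L => A.eval (graphInput (labelGraph lab a)) = true) + α ≤
    prob (fun x : (Sym2 (Fin n) → Fin L) × {S : Finset (Fin n) // S.card = k} =>
      A.eval (graphInput (withClique (labelGraph x.1 a) x.2.1)) = true) →
  ∃ C : T9h35.RW.Circuit (Fin n × Fin n), C.FanIn f 1 ∧ C.numTests = T ∧
    C.size ≤ 2 * A.size + 10 * n ^ 4 ∧ DepthLE C (DA + 10 * Nat.log 2 n + 10) ∧
    prob (fun lab : Sym2 (Fin n) → Fin L => C.eval (graphInput (labelGraph lab a)) = true) +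
        c * α ^ 2 * (2 ^ T / n) ≤
      prob (fun x : (Sym2 (Fin n) → Fin L) × {S : Finset (Fin n) // S.card = k} =>
        C.eval (graphInput (withClique (labelGraph x.1 a) x.2.1)) = true)

section

/-- The expected number of `k`-cliques of the random graph of density `p`. -/
noncomputable def meanCl (n k : ℕ) (p : ℝ) : ℝ := (n.choose k : ℝ) * p ^ (k.choose 2)

/-- The second moment of the number of `k`-cliques divided by the square of the mean. -/
noncomputable def ratio2 (n k : ℕ) (p : ℝ) : ℝ :=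
  ∑ j ∈ range (k + 1), ((k.choose j * (n - k).choose (k - j) : ℕ) : ℝ) *
    p ^ (k.choose 2 - j.choose 2) / meanCl n k p

end

/-- (N) The size-biased law.  Let `X` be the number of `k`-cliques of the random graph `G`, and
`M = meanCl n k p` its mean.  `G` with a planted clique has the law of `G` weighted by `X / M`
(for given `S`, the graph `G ∪ K_S` has the law of `G` given `K_S ⊆ G`), so
`P[planted satisfies P] = 1 - E[X; ¬ P] / M ≥ 1 - sqrt (η * E[X ^ 2]) / M` by Cauchy-Schwarz (where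
`X ≥ 1` and `¬ P` there is an error), and `P[G satisfies P] ≤ P[X ≥ 1] + η ≤ M + η`. -/
def StBias : Prop := ∀ (n k a L : ℕ) (P : SimpleGraph (Fin n) → Prop) (ε η : ℝ), 2 ≤ k → k ≤ n →
  1 ≤ a → a ≤ L →
  prob (fun x : (Sym2 (Fin n) → Fin L) × {S : Finset (Fin n) // S.card = k} =>
      P (withClique (labelGraph x.1 a) x.2.1)) ≤
    prob (fun lab : Sym2 (Fin n) → Fin L => P (labelGraph lab a)) + ε →
  prob (fun lab : Sym2 (Fin n) → Fin L =>
      ¬ (P (labelGraph lab a) ↔ ∃ S : Finset (Fin n), (labelGraph lab a).IsNClique k S)) ≤ η →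
  1 - meanCl n k ((a : ℝ) / L) - ε - η ≤ Real.sqrt (η * ratio2 n k ((a : ℝ) / L))

/-- (M) Second moment at the threshold, `k` fixed, `n` large.  The term `j = 0` is at most `1`, the
term `j = k` is `1 / M ≤ 4`, the others tend to `0`: `p ^ (k.choose 2) ≥ 1 / (4 * n ^ k)`, so
`(1 / p) ^ (j.choose 2) ≤ (4 * n ^ k) ^ (j * (j - 1) / (k * (k - 1)))`, and the term `j` is at most
`C (k) * n ^ (- j) * (4 * n ^ k) ^ (j * (j - 1) / (k * (k - 1))) ≤ C' (k) * n ^ (- j * (k - j) / (k - 1))`. -/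
def StThr : Prop := ∀ k : ℕ, 3 ≤ k → ∃ n₀ : ℕ, ∀ n a L : ℕ, n₀ ≤ n → 1 ≤ a → a ≤ L →
  1 / 4 ≤ meanCl n k ((a : ℝ) / L) → meanCl n k ((a : ℝ) / L) ≤ 1 / 2 →
  ratio2 n k ((a : ℝ) / L) ≤ 6 ∧ Real.log (2 * L / a) ≤ 3 / (k - 1) * Real.log n

/-- (A) The average case, from `StFinalL`, (N), (M), with `s = ⌊n ^ (δ ^ 2 * (k - 1) / 24000)⌋₊ ≥ n`:
`ε = 2 ^ T * (k * D) ^ 2 * n ^ (δ - 1) ≤ k ^ 2 * n ^ (- δ) ≤ 1 / 100`; if `η < 1 / 50` then
`1 - 1 / 2 - 1 / 100 - 1 / 50 ≤ sqrt (6 / 50)`, which is false. -/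
def StAvg : Prop := ∀ δ : ℝ, 0 < δ → δ ≤ 1 / 2 → ∀ k : ℕ, 24000 ≤ δ ^ 2 * ((k : ℝ) - 1) →
  ∃ n₀ : ℕ, ∀ n D a L : ℕ, n₀ ≤ n → 1 ≤ D → 1 ≤ a → a ≤ L →
  1 / 4 ≤ meanCl n k ((a : ℝ) / L) → meanCl n k ((a : ℝ) / L) ≤ 1 / 2 →
  ∀ (d : ℕ) (C : T9h35.RW.Circuit (Fin n × Fin n)), C.FanIn 2 d → DepthLE C D →
  ((C.size + C.numTests : ℕ) : ℝ) ≤ (n : ℝ) ^ (δ ^ 2 * ((k : ℝ) - 1) / 24000) →
  2 ^ C.numTests * (D : ℝ) ^ 2 ≤ (n : ℝ) ^ (1 - 2 * δ) →
  1 / 50 ≤ prob (fun lab : Sym2 (Fin n) → Fin L =>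
    ¬ (C.eval (graphInput (labelGraph lab a)) = true ↔
      ∃ S : Finset (Fin n), (labelGraph lab a).IsNClique k S))

end Pool.Agent.T9h16.QL
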